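import Mathlib
import Pool.Agent.H17Gun.Ident

set_option autoImplicit false

namespace Pool.Agent.Results.MP_290120_co.FailsAt16x14

open Finset Pool.Agent.H17Gun

/-- two cells of the board share an edge -/
def Adj {m n : ℕ} (x y : Fin m × Fin n) : Prop :=
  (x.1 = y.1 ∧ (x.2.val + 1 = y.2.val ∨ y.2.val + 1 = x.2.val)) ∨
  (x.2 = y.2 ∧ (x.1.val + 1 = y.1.val ∨ y.1.val + 1 = x.1.val))

/-- the uncovered cells -/
def holes {m n : ℕ} (D : Finset (Finset (Fin m × Fin n))) : Finset (Fin m × Fin n) :=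
  univ.filter (fun x => ∀ d ∈ D, x ∉ d)

/-- gunport configurations: every member of `D` is a domino (a pair of cells sharing an edge), the
dominoes do not overlap, and no two uncovered cells share an edge -/
structure IsGunport {m n : ℕ} (D : Finset (Finset (Fin m × Fin n))) : Prop where
  domino : ∀ d ∈ D, ∃ x y, Adj x y ∧ d = {x, y}
  disj : ∀ d ∈ D, ∀ e ∈ D, d ≠ e → Disjoint d e
  isolated : ∀ x ∈ holes D, ∀ y ∈ holes D, ¬ Adj x y

/-- the numbers of holes of the gunport configurations on the `m × n` board -/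
def counts (m n : ℕ) : Set ℕ :=
  {k | ∃ D : Finset (Finset (Fin m × Fin n)), IsGunport D ∧ (holes D).card = k}

/-- the maximum number of holes -/
noncomputable def G (m n : ℕ) : ℕ := sSup (counts m n)

theorem Adj.symm {m n : ℕ} {x y : Fin m × Fin n} (h : Adj x y) : Adj y x := by
  rcases h with ⟨h1, h2⟩ | ⟨h1, h2⟩
  · exact Or.inl ⟨h1.symm, h2.symm⟩
  · exact Or.inr ⟨h1.symm, h2.symm⟩

theorem Adj.ne {m n : ℕ} {x y : Fin m × Fin n} (h : Adj x y) : x ≠ y := by
  rintro rfl
  rcases h with ⟨_, h2⟩ | ⟨_, h2⟩ <;> omega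

/-- the cells `(a, b)` and `(a', b')` (coordinates starting with `1`) are covered by one domino -/
def M (D : Finset (Finset (Fin 16 × Fin 14))) (a b a' b' : ℕ) : Prop :=
  ∃ x y : Fin 16 × Fin 14, ({x, y} : Finset (Fin 16 × Fin 14)) ∈ D ∧ x.1.val + 1 = a ∧
    x.2.val + 1 = b ∧ y.1.val + 1 = a' ∧ y.2.val + 1 = b'

theorem M.symm {D : Finset (Finset (Fin 16 × Fin 14))} {a b a' b' : ℕ} (h : M D a b a' b') :
    M D a' b' a b := by
  obtain ⟨x, y, h1, h2, h3, h4, h5⟩ := h
  exact ⟨y, x, by rwa [pair_comm], h4, h5, h2, h3⟩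

theorem M.range {D : Finset (Finset (Fin 16 × Fin 14))} {a b a' b' : ℕ} (h : M D a b a' b') :
    (1 ≤ a ∧ a ≤ 16 ∧ 1 ≤ b ∧ b ≤ 14) ∧ (1 ≤ a' ∧ a' ≤ 16 ∧ 1 ≤ b' ∧ b' ≤ 14) := by
  obtain ⟨x, y, _, h2, h3, h4, h5⟩ := h
  have := x.1.isLt
  have := x.2.isLt
  have := y.1.isLt
  have := y.2.isLt
  omega

theorem M.uniq {D : Finset (Finset (Fin 16 × Fin 14))} (hD : IsGunport D) {a b a' b' a'' b'' : ℕ}
    (h : M D a b a' b') (h' : M D a b a'' b'') : a' = a'' ∧ b' = b'' := by
  obtain ⟨x, y, h1, h2, h3, h4, h5⟩ := h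
  obtain ⟨u, z, k1, k2, k3, k4, k5⟩ := h'
  have hxu : u = x := by
    apply Prod.ext <;> apply Fin.ext <;> omega
  subst hxu
  have hxy : y ≠ u := by
    obtain ⟨p, q, hpq, he⟩ := hD.domino _ h1
    rintro rfl
    have : p = q := by
      have h6 : p ∈ ({y, y} : Finset (Fin 16 × Fin 14)) := by rw [he]; simp
      have h7 : q ∈ ({y, y} : Finset (Fin 16 × Fin 14)) := by rw [he]; simp
      simp only [mem_insert, mem_singleton, or_self] at h6 h7
      rw [h6, h7]
    exact hpq.ne this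
  have heq : ({u, y} : Finset (Fin 16 × Fin 14)) = {u, z} := by
    by_contra hne
    have hd := hD.disj _ h1 _ k1 hne
    exact (disjoint_left.1 hd) (mem_insert_self u _) (mem_insert_self u _)
  have hy : y ∈ ({u, z} : Finset (Fin 16 × Fin 14)) := by
    rw [← heq]; simp
  simp only [mem_insert, mem_singleton] at hy
  rcases hy with hy | hy
  · exact absurd hy hxy
  · subst hy
    omega

open Classical in
/-- the type of a cell -/
noncomputable def tt (D : Finset (Finset (Fin 16 × Fin 14))) (r c : ℕ) : Ty :=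
  if 1 ≤ r ∧ r ≤ 16 ∧ 1 ≤ c ∧ c ≤ 14 then
    if M D r c r (c + 1) then Ty.L else if M D r c r (c - 1) then Ty.R else
    if M D r c (r + 1) c then Ty.T else if M D r c (r - 1) c then Ty.B else Ty.O
  else Ty.X

section

variable {D : Finset (Finset (Fin 16 × Fin 14))} (hD : IsGunport D) (r c : ℕ)
include hD

omit hD in
theorem tt_X : tt D r c = Ty.X ↔ ¬ (1 ≤ r ∧ r ≤ 16 ∧ 1 ≤ c ∧ c ≤ 14) := by
  unfold tt
  split_ifs <;> simp_all

omit hD in
theorem tt_L : tt D r c = Ty.L ↔ M D r c r (c + 1) := by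
  unfold tt
  by_cases h : M D r c r (c + 1)
  · rw [if_pos h.range.1, if_pos h]
    simp [h]
  · rw [if_neg h]
    split_ifs <;> simp_all

theorem tt_R : tt D r c = Ty.R ↔ M D r c r (c - 1) := by
  unfold tt
  by_cases h : M D r c r (c - 1)
  · have h1 : ¬ M D r c r (c + 1) := by
      intro h2
      have := h.uniq hD h2
      omega
    rw [if_pos h.range.1, if_neg h1, if_pos h]
    simp [h]
  · rw [if_neg h]
    split_ifs <;> simp_all

theorem tt_T : tt D r c = Ty.T ↔ M D r c (r + 1) c := by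
  unfold tt
  by_cases h : M D r c (r + 1) c
  · have h1 : ¬ M D r c r (c + 1) := by
      intro h2
      have := h.uniq hD h2
      omega
    have h3 : ¬ M D r c r (c - 1) := by
      intro h2
      have := h.uniq hD h2
      omega
    rw [if_pos h.range.1, if_neg h1, if_neg h3, if_pos h]
    simp [h]
  · rw [if_neg h]
    split_ifs <;> simp_all

theorem tt_B : tt D r c = Ty.B ↔ M D r c (r - 1) c := by
  unfold tt
  by_cases h : M D r c (r - 1) c
  · have h1 : ¬ M D r c r (c + 1) := by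
      intro h2
      have := h.uniq hD h2
      have := h.range
      omega
    have h3 : ¬ M D r c r (c - 1) := by
      intro h2
      have := h.uniq hD h2
      have := h.range
      omega
    have h4 : ¬ M D r c (r + 1) c := by
      intro h2
      have := h.uniq hD h2
      have := h.range
      omega
    rw [if_pos h.range.1, if_neg h1, if_neg h3, if_neg h4, if_pos h]
    simp [h]
  · rw [if_neg h]
    split_ifs <;> simp_all

omit hD in
theorem tt_O : tt D r c = Ty.O ↔ (1 ≤ r ∧ r ≤ 16 ∧ 1 ≤ c ∧ c ≤ 14) ∧ ¬ M D r c r (c + 1) ∧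
    ¬ M D r c r (c - 1) ∧ ¬ M D r c (r + 1) c ∧ ¬ M D r c (r - 1) c := by
  unfold tt
  split_ifs <;> simp_all

omit hD in
theorem M_of_adj (x y : Fin 16 × Fin 14) (h : Adj x y)
    (hxy : ({x, y} : Finset (Fin 16 × Fin 14)) ∈ D) :
    tt D (x.1.val + 1) (x.2.val + 1) ≠ Ty.O := by
  intro ho
  rw [tt_O] at ho
  obtain ⟨_, h1, h2, h3, h4⟩ := ho
  rcases h with ⟨e1, e2 | e2⟩ | ⟨e1, e2 | e2⟩
  · exact h1 ⟨x, y, hxy, rfl, rfl, by rw [e1], by omega⟩
  · exact h2 ⟨x, y, hxy, rfl, rfl, by rw [e1], by omega⟩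
  · exact h3 ⟨x, y, hxy, rfl, rfl, by omega, by rw [e1]⟩
  · exact h4 ⟨x, y, hxy, rfl, rfl, by omega, by rw [e1]⟩

omit hD in
theorem mem_of_M (x : Fin 16 × Fin 14) (a b : ℕ) (h : M D (x.1.val + 1) (x.2.val + 1) a b) :
    x ∉ holes D := by
  obtain ⟨u, y, h1, h2, h3, _, _⟩ := h
  have hxu : u = x := by
    apply Prod.ext <;> apply Fin.ext <;> omega
  subst hxu
  intro hm
  rw [holes, mem_filter] at hm
  exact hm.2 _ h1 (mem_insert_self u _)

theorem hole_iff (x : Fin 16 × Fin 14) :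
    tt D (x.1.val + 1) (x.2.val + 1) = Ty.O ↔ x ∈ holes D := by
  constructor
  · intro ho
    rw [holes, mem_filter]
    refine ⟨mem_univ _, ?_⟩
    intro d hd hx
    obtain ⟨u, v, huv, rfl⟩ := hD.domino d hd
    simp only [mem_insert, mem_singleton] at hx
    rcases hx with rfl | rfl
    · exact M_of_adj _ _ huv hd ho
    · rw [pair_comm] at hd
      exact M_of_adj _ _ huv.symm hd ho
  · intro hx
    rw [tt_O]
    have h1 := x.1.isLt
    have h2 := x.2.isLt
    refine ⟨by omega, ?_, ?_, ?_, ?_⟩ <;> exact fun h => mem_of_M x _ _ h hx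

theorem tt_good : Good (tt D) := by
  refine ⟨?_, ?_, ?_⟩
  · intro r c hr hc
    rw [tt_X]
    omega
  · intro r c hr hc
    unfold hok
    rw [decide_eq_true_iff]
    refine ⟨?_, ?_⟩
    · rw [tt_L, tt_R hD, Nat.add_sub_cancel]
      exact ⟨fun h => h.symm, fun h => h.symm⟩
    · rintro ⟨h1, h2⟩
      have r1 := ((tt_O _ _).1 h1).1
      have r2 := ((tt_O _ _).1 h2).1
      obtain ⟨i, hi⟩ : ∃ i : Fin 16, i.val + 1 = r := ⟨⟨r - 1, by omega⟩, by simp; omega⟩
      obtain ⟨j, hj⟩ : ∃ j : Fin 14, j.val + 1 = c := ⟨⟨c - 1, by omega⟩, by simp; omega⟩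
      obtain ⟨j', hj'⟩ : ∃ j' : Fin 14, j'.val + 1 = c + 1 := ⟨⟨c, by omega⟩, by simp⟩
      refine hD.isolated (i, j) ?_ (i, j') ?_ (Or.inl ⟨rfl, Or.inl ?_⟩)
      · rw [← hole_iff hD]
        simpa only [hi, hj] using h1
      · rw [← hole_iff hD]
        simpa only [hi, hj'] using h2
      · simp only
        omega
  · intro r c hr hc
    unfold vok
    rw [decide_eq_true_iff]
    refine ⟨?_, ?_⟩
    · rw [tt_T hD, tt_B hD, Nat.add_sub_cancel]
      exact ⟨fun h => h.symm, fun h => h.symm⟩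
    · rintro ⟨h1, h2⟩
      have r1 := ((tt_O _ _).1 h1).1
      have r2 := ((tt_O _ _).1 h2).1
      obtain ⟨i, hi⟩ : ∃ i : Fin 16, i.val + 1 = r := ⟨⟨r - 1, by omega⟩, by simp; omega⟩
      obtain ⟨j, hj⟩ : ∃ j : Fin 14, j.val + 1 = c := ⟨⟨c - 1, by omega⟩, by simp; omega⟩
      obtain ⟨i', hi'⟩ : ∃ i' : Fin 16, i'.val + 1 = r + 1 := ⟨⟨r, by omega⟩, by simp⟩
      refine hD.isolated (i, j) ?_ (i', j) ?_ (Or.inr ⟨rfl, Or.inl ?_⟩)
      · rw [← hole_iff hD]
        simpa only [hi, hj] using h1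
      · rw [← hole_iff hD]
        simpa only [hi', hj] using h2
      · simp only
        omega

theorem N0_eq : N0 (tt D) = (holes D).card := by
  classical
  have hx1 : ∀ c, tt D (16 + 1) (c + 1) = Ty.X := fun c => (tt_X _ _).2 (by omega)
  have hx2 : ∀ r, tt D (r + 1) (14 + 1) = Ty.X := fun r => (tt_X _ _).2 (by omega)
  unfold N0
  rw [sum_range_succ]
  simp only [hx1]
  have e1 : ∀ r, ∑ c ∈ range 15, (if tt D (r + 1) (c + 1) = Ty.O then (1 : ℤ) else 0) =
      ∑ c ∈ range 14, (if tt D (r + 1) (c + 1) = Ty.O then (1 : ℤ) else 0) := by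
    intro r
    rw [sum_range_succ, hx2]
    simp
  simp only [e1]
  rw [sum_range, if_neg (by decide), sum_const_zero, add_zero]
  have e2 : ∀ i : Fin 16, ∑ c ∈ range 14, (if tt D (i.val + 1) (c + 1) = Ty.O then (1 : ℤ) else 0) =
      ∑ j : Fin 14, (if (i, j) ∈ holes D then (1 : ℤ) else 0) := by
    intro i
    rw [sum_range]
    apply sum_congr rfl
    intro j _
    have := hole_iff hD (i, j)
    simp only [this]
  simp only [e2]
  rw [← Fintype.sum_prod_type (fun x => if x ∈ holes D then (1 : ℤ) else 0), sum_boole,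
    filter_univ_mem]

theorem holes_add : (holes D).card + 2 * D.card = 224 := by
  have h1 : (D.biUnion id).card = 2 * D.card := by
    rw [card_biUnion]
    · rw [sum_congr rfl (g := fun _ => 2)]
      · rw [sum_const, smul_eq_mul, mul_comm]
      · intro d hd
        obtain ⟨x, y, hxy, rfl⟩ := hD.domino d hd
        exact card_pair hxy.ne
    · intro d hd e he hne
      exact hD.disj d hd e he hne
  have h2 : holes D = univ \ D.biUnion id := by
    ext x
    simp [holes]
  have h3 : (holes D).card + (D.biUnion id).card = (univ : Finset (Fin 16 × Fin 14)).card := by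
    rw [h2]
    exact card_sdiff_add_card_eq_card (subset_univ _)
  rw [h1, card_univ, Fintype.card_prod, Fintype.card_fin, Fintype.card_fin] at h3
  exact h3

theorem holes_le : (holes D).card ≤ 72 := by
  have h1 := N0_le (tt D) (tt_good hD)
  rw [N0_eq hD] at h1
  have h2 := holes_add hD
  omega

end

/-- the dominoes of a configuration with `72` holes -/
def conf : List ((Fin 16 × Fin 14) × (Fin 16 × Fin 14)) :=
  [((0, 1), (0, 2)), ((0, 4), (1, 4)), ((0, 6), (1, 6)), ((0, 8), (1, 8)), ((0, 10), (1, 10)),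
   ((0, 12), (1, 12)), ((1, 0), (2, 0)), ((1, 2), (1, 3)), ((1, 5), (2, 5)), ((1, 7), (2, 7)),
   ((1, 9), (2, 9)), ((1, 11), (2, 11)), ((1, 13), (2, 13)), ((2, 1), (3, 1)), ((2, 3), (3, 3)),
   ((3, 2), (4, 2)), ((3, 4), (4, 4)), ((3, 6), (4, 6)), ((3, 8), (4, 8)), ((3, 10), (4, 10)),
   ((3, 12), (4, 12)), ((4, 0), (5, 0)), ((4, 5), (5, 5)), ((4, 7), (5, 7)), ((4, 9), (5, 9)),
   ((4, 11), (5, 11)), ((4, 13), (5, 13)), ((5, 1), (6, 1)), ((5, 3), (6, 3)), ((6, 2), (7, 2)),
   ((6, 4), (7, 4)), ((6, 6), (7, 6)), ((6, 8), (7, 8)), ((6, 10), (7, 10)), ((6, 12), (7, 12)),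
   ((7, 0), (8, 0)), ((7, 5), (8, 5)), ((7, 7), (8, 7)), ((7, 9), (8, 9)), ((7, 11), (8, 11)),
   ((7, 13), (8, 13)), ((8, 1), (9, 1)), ((8, 3), (9, 3)), ((9, 2), (10, 2)), ((9, 4), (10, 4)),
   ((9, 6), (10, 6)), ((9, 8), (10, 8)), ((9, 10), (10, 10)), ((9, 12), (10, 12)),
   ((10, 0), (11, 0)), ((10, 5), (11, 5)), ((10, 7), (11, 7)), ((10, 9), (11, 9)),
   ((10, 11), (11, 11)), ((10, 13), (11, 13)), ((11, 1), (12, 1)), ((11, 3), (12, 3)),
   ((12, 2), (13, 2)), ((12, 4), (13, 4)), ((12, 6), (13, 6)), ((12, 8), (13, 8)),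
   ((12, 10), (13, 10)), ((12, 12), (13, 12)), ((13, 0), (14, 0)), ((13, 5), (14, 5)),
   ((13, 7), (14, 7)), ((13, 9), (14, 9)), ((13, 11), (14, 11)), ((13, 13), (14, 13)),
   ((14, 1), (15, 1)), ((14, 2), (14, 3)), ((15, 3), (15, 4)), ((15, 6), (15, 7)),
   ((15, 8), (15, 9)), ((15, 10), (15, 11)), ((15, 12), (15, 13))]

/-- a configuration with `72` holes -/
def D72 : Finset (Finset (Fin 16 × Fin 14)) :=
  (conf.map (fun p => ({p.1, p.2} : Finset (Fin 16 × Fin 14)))).toFinset

/-- the covered cells -/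
def cov (x : Fin 16 × Fin 14) : Bool := conf.any (fun p => decide (x = p.1) || decide (x = p.2))

instance {m n : ℕ} (x y : Fin m × Fin n) : Decidable (Adj x y) := by unfold Adj; infer_instance

theorem conf_adj' : conf.all (fun p => decide (Adj p.1 p.2)) = true := by decide +kernel

theorem conf_adj : ∀ p ∈ conf, Adj p.1 p.2 := by
  intro p hp
  exact of_decide_eq_true (List.all_eq_true.1 conf_adj' p hp)

/-- the dominoes `p` and `q` do not overlap -/
def Apart (p q : (Fin 16 × Fin 14) × (Fin 16 × Fin 14)) : Prop :=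
  p.1 ≠ q.1 ∧ p.1 ≠ q.2 ∧ p.2 ≠ q.1 ∧ p.2 ≠ q.2

instance (p q : (Fin 16 × Fin 14) × (Fin 16 × Fin 14)) : Decidable (Apart p q) := by
  unfold Apart; infer_instance

instance : Std.Symm Apart :=
  ⟨fun _ _ h => ⟨h.1.symm, h.2.2.1.symm, h.2.1.symm, h.2.2.2.symm⟩⟩

theorem conf_pw : conf.Pairwise Apart := by
  decide +kernel

theorem conf_iso' : ∀ (i : Fin 16) (j : Fin 14), cov (i, j) = true ∨
    ((∀ i' : Fin 16, i.val + 1 = i'.val → cov (i', j) = true) ∧
      (∀ j' : Fin 14, j.val + 1 = j'.val → cov (i, j') = true)) := by decide +kernel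

theorem conf_iso (x : Fin 16 × Fin 14) (hx : cov x = false) (y : Fin 16 × Fin 14)
    (h : Adj x y) : cov y = true := by
  by_contra hy
  obtain ⟨i, j⟩ := x
  obtain ⟨k, l⟩ := y
  rcases h with ⟨h1, h2 | h2⟩ | ⟨h1, h2 | h2⟩
  · rcases conf_iso' i j with h3 | h3
    · rw [h3] at hx; exact absurd hx (by decide)
    · have h4 := h3.2 l h2
      simp only at h1
      rw [h1] at h4
      exact hy h4
  · rcases conf_iso' k l with h3 | h3
    · exact hy h3
    · have h4 := h3.2 j h2
      simp only at h1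
      rw [← h1, hx] at h4
      exact absurd h4 (by decide)
  · rcases conf_iso' i j with h3 | h3
    · rw [h3] at hx; exact absurd hx (by decide)
    · have h4 := h3.1 k h2
      simp only at h1
      rw [h1] at h4
      exact hy h4
  · rcases conf_iso' k l with h3 | h3
    · exact hy h3
    · have h4 := h3.1 i h2
      simp only at h1
      rw [← h1, hx] at h4
      exact absurd h4 (by decide)

theorem conf_card : (univ.filter (fun x => cov x = false)).card = 72 := by decide +kernel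

theorem mem_D72 (d : Finset (Fin 16 × Fin 14)) : d ∈ D72 ↔ ∃ p ∈ conf, {p.1, p.2} = d := by
  simp only [D72, List.mem_toFinset, List.mem_map]

theorem holes_D72 : holes D72 = univ.filter (fun x => cov x = false) := by
  ext x
  simp only [holes, mem_filter, mem_univ, true_and]
  constructor
  · intro h
    rw [cov, List.any_eq_false]
    intro p hp
    have := h {p.1, p.2} ((mem_D72 _).2 ⟨p, hp, rfl⟩)
    simp only [mem_insert, mem_singleton] at this
    simpa using this
  · intro h d hd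
    obtain ⟨p, hp, rfl⟩ := (mem_D72 _).1 hd
    rw [cov, List.any_eq_false] at h
    have := h p hp
    simpa using this

theorem gunport_D72 : IsGunport D72 := by
  refine ⟨?_, ?_, ?_⟩
  · intro d hd
    obtain ⟨p, hp, rfl⟩ := (mem_D72 _).1 hd
    exact ⟨p.1, p.2, conf_adj p hp, rfl⟩
  · intro d hd e he hne
    obtain ⟨p, hp, rfl⟩ := (mem_D72 _).1 hd
    obtain ⟨q, hq, rfl⟩ := (mem_D72 _).1 he
    have hpq : p ≠ q := by
      rintro rfl
      exact hne rfl
    have key := conf_pw.forall hp hq hpq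
    rw [disjoint_left]
    intro x h1 h2
    simp only [mem_insert, mem_singleton] at h1 h2
    rcases h1 with rfl | rfl <;> rcases h2 with h2 | h2
    · exact key.1 h2
    · exact key.2.1 h2
    · exact key.2.2.1 h2
    · exact key.2.2.2 h2
  · intro x hx y hy hxy
    rw [holes_D72, mem_filter] at hx hy
    have := conf_iso x hx.2 y hxy
    rw [hy.2] at this
    exact absurd this (by decide)

/-- The maximum number of holes of a gunport configuration on the `16 × 14` board is `72`, and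
consequently Pearce's formula is not true for all boards no side of which is divisible by `3` (it
gives `74` for this board). -/
theorem result : IsGreatest (counts 16 14) 72 ∧ G 16 14 = 72 ∧
    ¬ (∀ m n : ℕ, 2 ≤ m → 2 ≤ n → ¬ 3 ∣ m → ¬ 3 ∣ n →
      G m n = if m % 3 = n % 3 then (m * n - 4) / 3 else (m * n - 2) / 3) := by
  have h1 : IsGreatest (counts 16 14) 72 := by
    refine ⟨⟨D72, gunport_D72, ?_⟩, ?_⟩
    · rw [holes_D72, conf_card]
    · rintro k ⟨D, hD, rfl⟩
      exact holes_le hD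
  have h2 : G 16 14 = 72 := h1.csSup_eq
  refine ⟨h1, h2, ?_⟩
  intro h
  have h3 := h 16 14 (by norm_num) (by norm_num) (by norm_num) (by norm_num)
  rw [h2] at h3
  norm_num at h3

end Pool.Agent.Results.MP_290120_co.FailsAt16x14
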